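import Pool.Agent.V11307.QApply

set_option autoImplicit false

/-!
# The truncated sums `∑_{k<mn} (-1)^k [4k+1] q^{k²} (q;q²)_k³/(q²;q²)_k³` modulo `Φ_n(q)²`
-/

namespace Pool.Agent.Results.MP_dac99f_nt.FourK

open Polynomial Finset

noncomputable section

/-- The indeterminate `q` of the field `ℚ(q)`. -/
def q : RatFunc ℚ := RatFunc.X

/-- The `q`-shifted factorial `(a;t)_k = ∏_{j<k} (1 - a t^j)`. -/
def qPoch (a t : RatFunc ℚ) (k : ℕ) : RatFunc ℚ := ∏ j ∈ range k, (1 - a * t ^ j)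

/-- The `q`-integer `[N] = 1 + q + ⋯ + q^{N-1}`. -/
def qInt (N : ℕ) : RatFunc ℚ := ∑ i ∈ range N, q ^ i

/-- `S_{m,n}(q)`. -/
def S (m n : ℕ) : RatFunc ℚ :=
  ∑ k ∈ range (m * n), (-1) ^ k * qInt (4 * k + 1) * q ^ (k ^ 2) *
    (qPoch q (q ^ 2) k ^ 3 / qPoch (q ^ 2) (q ^ 2) k ^ 3)

/-- The rising factorial `(x)_k = x (x+1) ⋯ (x+k-1)`. -/
def rising (x : ℚ) (k : ℕ) : ℚ := ∏ j ∈ range k, (x + j)

/-- `c_m = ∑_{k<m} (-1)^k (4k+1) (1/2)_k³ / k!³`. -/
def c (m : ℕ) : ℚ :=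
  ∑ k ∈ range m, (-1) ^ k * (4 * k + 1) * (rising (1 / 2) k ^ 3 / (k.factorial : ℚ) ^ 3)

/-- `A ≡ B (mod Φ_n(q)²)`: `A - B = P/Q` with `Q` coprime to `Φ_n` and `Φ_n² ∣ P`. -/
def CongSq (n : ℕ) (A B : RatFunc ℚ) : Prop :=
  ∃ P Q : ℚ[X], IsCoprime Q (cyclotomic n ℚ) ∧ cyclotomic n ℚ ^ 2 ∣ P ∧
    A - B = algebraMap ℚ[X] (RatFunc ℚ) P / algebraMap ℚ[X] (RatFunc ℚ) Q

/-- The right-hand side of the congruence. -/
def rhs (m n : ℕ) : RatFunc ℚ :=
  (-1) ^ ((n - 1) / 2) * q ^ ((n - 1) ^ 2 / 4) * qInt n * RatFunc.C (c m)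

open V11307.Q V11307.WZ

theorem hyp (M : ℕ) (hM : 0 < M) :
    Hyp (fun i => 2 * i + 1) (fun i => 2 * i + 2) id (2 * M + 1) M where
  hn := by omega
  hM := by omega
  ha l := by ring
  ha' l i hi hiM := by
    intro hd
    have h1 : 2 * (l * (2 * M + 1) + i) + 1 = (2 * M + 1) * (2 * l) + (2 * i + 1) := by ring
    rw [h1, Nat.dvd_add_right (dvd_mul_right _ _)] at hd
    obtain ⟨c, hc⟩ := hd
    have : c < 2 := by
      by_contra h
      have : (2 * M + 1) * 2 ≤ (2 * M + 1) * c := Nat.mul_le_mul_left _ (by omega)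
      omega
    interval_cases c <;> omega
  hb l := by
    have : 2 * M + 1 - 1 = 2 * M := by omega
    simp only [this]; ring
  hb' l i hi hiM := by
    intro hd
    have h1 : 2 * (l * (2 * M + 1) + i) + 2 = (2 * M + 1) * (2 * l) + (2 * i + 2) := by ring
    rw [h1, Nat.dvd_add_right (dvd_mul_right _ _)] at hd
    obtain ⟨c, hc⟩ := hd
    have : c < 2 := by
      by_contra h
      have : (2 * M + 1) * 2 ≤ (2 * M + 1) * c := Nat.mul_le_mul_left _ (by omega)
      omega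
    interval_cases c <;> omega
  ha0 t := by omega
  hb0 t := by omega
  haa t j h := by omega
  hab t j h := by omega
  hd := Or.inl fun _ => rfl

/-- undeformed factor -/
def w (g : RatFunc ℚ) (k : ℕ) : RatFunc ℚ :=
  (-1) ^ k * (1 - g ^ (4 * k + 1)) * g ^ (k ^ 2) *
    ∏ u ∈ range k, (1 - g ^ (2 * u + 1)) / (1 - g ^ (2 * u + 2))

theorem qInt_eq (N : ℕ) : qInt N = (1 - V11307.Q.q ^ N) * (1 - V11307.Q.q)⁻¹ := by
  have h1 : (1 : RatFunc ℚ) - V11307.Q.q ≠ 0 := by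
    have := one_sub_ne (k := 1) one_pos
    rwa [pow_one] at this
  rw [← div_eq_mul_inv, eq_div_iff h1]
  exact geom_sum_mul_neg V11307.Q.q N

theorem main_I (m M : ℕ) (hM : 0 < M) :
    I (2 * M + 1) 2 (S m (2 * M + 1) - (-1) ^ M * q ^ (M ^ 2) * qInt (2 * M + 1) * RatFunc.C (c m)) := by
  set n := 2 * M + 1 with hn
  have H := hyp M hM
  rw [← hn] at H
  have hnpos : 0 < n := by omega
  have hU1 : (1 - V11307.Q.q)⁻¹ ∈ R n := by
    have := (one_sub_U hnpos (e := 1) (by intro h; have := Nat.le_of_dvd one_pos h; omega)).2.2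
    rwa [pow_one] at this
  have hqn0 := one_sub_ne hnpos
  -- the block theorem
  have hW : ∀ k, w V11307.Q.q k * (1 - V11307.Q.q)⁻¹ ∈ R n := by
    intro k
    refine mul_mem (mul_mem (mul_mem (mul_mem (pow_mem (neg_mem (one_mem _)) _)
      (sub_mem (one_mem _) (pow_mem q_mem _))) (pow_mem q_mem _)) ?_) hU1
    exact H.single k
  have main := H.main (fun k => w V11307.Q.q k * (1 - V11307.Q.q)⁻¹) hW
    ((-1) ^ M * V11307.Q.q ^ (M ^ 2) * ((1 - V11307.Q.q ^ n) * (1 - V11307.Q.q)⁻¹))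
    (fun t => w (V11307.Q.q ^ n) t * (1 - V11307.Q.q ^ n)⁻¹) (by
      intro l
      have hl : (2 * l + 1) * n = 2 * (l * n + M) + 1 := by rw [hn]; ring
      have c1 := cf1 q_ne q_ne_one' (l * n + M)
      have c2 := cf1 (pow_ne_zero n q_ne) (q_pow_ne_one hnpos) l
      have e1 : ∑ k ∈ range (l * n + M + 1), w V11307.Q.q k * (1 - V11307.Q.q)⁻¹ *
          ∏ u ∈ range k, rho (fun i => 2 * i + 1) (fun i => 2 * i + 2) id (sv ((2 * l + 1) * n)) u =
          (-1) ^ (l * n + M) * V11307.Q.q ^ ((l * n + M) ^ 2) *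
            (1 - V11307.Q.q ^ ((2 * l + 1) * n)) * (1 - V11307.Q.q)⁻¹ := by
        rw [hl, ← c1, sum_mul]
        refine sum_congr rfl fun k _ => ?_
        rw [mul_right_comm]
        rfl
      have e2 : ∑ t ∈ range (l + 1), w (V11307.Q.q ^ n) t * (1 - V11307.Q.q ^ n)⁻¹ *
          ∏ u ∈ range t, EE' (fun i => 2 * i + 1) (fun i => 2 * i + 2) id n (sv ((2 * l + 1) * n)) u =
          (-1) ^ l * (V11307.Q.q ^ n) ^ (l ^ 2) * (1 - (V11307.Q.q ^ n) ^ (2 * l + 1)) *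
            (1 - V11307.Q.q ^ n)⁻¹ := by
        rw [← c2, sum_mul]
        refine sum_congr rfl fun t _ => ?_
        rw [mul_right_comm]
        congr 1
        rw [w]
        congr 1
        refine prod_congr rfl fun u _ => ?_
        simp only [EE', id]
        rw [f_eq_mul, f_eq_mul, sv_eq_mul]
      rw [e1, e2]
      have e3 : (-1 : RatFunc ℚ) ^ (l * n + M) = (-1) ^ M * (-1) ^ l := by
        rw [hn, show l * (2 * M + 1) + M = M + l + 2 * (l * M) by ring, pow_add, pow_add,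
          pow_mul _ 2]
        simp
      have e4 : V11307.Q.q ^ ((l * n + M) ^ 2) = V11307.Q.q ^ (M ^ 2) * (V11307.Q.q ^ n) ^ (l ^ 2) *
          V11307.Q.q ^ (n * (2 * M * (l * (l + 1)))) := by
        rw [← pow_mul, ← pow_add, ← pow_add]
        congr 1
        rw [hn]; ring
      have e5 : (V11307.Q.q ^ n) ^ (2 * l + 1) = V11307.Q.q ^ ((2 * l + 1) * n) := by
        rw [← pow_mul, mul_comm]
      rw [e3, e4, e5]
      have e6 : (-1) ^ M * (-1) ^ l * (V11307.Q.q ^ (M ^ 2) * (V11307.Q.q ^ n) ^ (l ^ 2) *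
            V11307.Q.q ^ (n * (2 * M * (l * (l + 1))))) *
            (1 - V11307.Q.q ^ ((2 * l + 1) * n)) * (1 - V11307.Q.q)⁻¹ -
          (-1) ^ M * V11307.Q.q ^ (M ^ 2) * ((1 - V11307.Q.q ^ n) * (1 - V11307.Q.q)⁻¹) *
            ((-1) ^ l * (V11307.Q.q ^ n) ^ (l ^ 2) * (1 - V11307.Q.q ^ ((2 * l + 1) * n)) *
              (1 - V11307.Q.q ^ n)⁻¹) =
          (1 - V11307.Q.q ^ ((2 * l + 1) * n)) * (1 - V11307.Q.q ^ (n * (2 * M * (l * (l + 1))))) *
            (-((-1) ^ M * (-1) ^ l * (V11307.Q.q ^ (M ^ 2) * (V11307.Q.q ^ n) ^ (l ^ 2)) *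
              (1 - V11307.Q.q)⁻¹)) := by
        have h1 : (1 - V11307.Q.q ^ n) * (1 - V11307.Q.q ^ n)⁻¹ = 1 := mul_inv_cancel₀ hqn0
        linear_combination (-(-1) ^ M * V11307.Q.q ^ (M ^ 2) * (1 - V11307.Q.q)⁻¹ *
            (-1) ^ l * (V11307.Q.q ^ n) ^ (l ^ 2) * (1 - V11307.Q.q ^ ((2 * l + 1) * n))) * h1
      rw [e6]
      refine ((I_one_sub_nat hnpos (dvd_mul_left _ _)).mul
        (I_one_sub_nat hnpos (dvd_mul_right _ _))).mul_R (neg_mem (mul_mem (mul_mem (mul_mem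
          (pow_mem (neg_mem (one_mem _)) _) (pow_mem (neg_mem (one_mem _)) _))
          (mul_mem (pow_mem q_mem _) (pow_mem (pow_mem q_mem _) _))) hU1))) m
  -- translate
  have hS : S m n = ∑ k ∈ range (m * n), w V11307.Q.q k * (1 - V11307.Q.q)⁻¹ *
      ∏ u ∈ range k, rho (fun i => 2 * i + 1) (fun i => 2 * i + 2) id 2 u := by
    rw [S]
    refine sum_congr rfl fun k _ => ?_
    have e1 : qPoch q (q ^ 2) k = ∏ u ∈ range k, (1 - V11307.Q.q ^ (2 * u + 1)) := by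
      rw [qPoch]
      refine prod_congr rfl fun u _ => ?_
      rw [← pow_mul, ← pow_succ']; rfl
    have e2 : qPoch (q ^ 2) (q ^ 2) k = ∏ u ∈ range k, (1 - V11307.Q.q ^ (2 * u + 2)) := by
      rw [qPoch]
      refine prod_congr rfl fun u _ => ?_
      rw [← pow_mul, ← pow_add, add_comm]; rfl
    have e3 : ∏ u ∈ range k, rho (fun i => 2 * i + 1) (fun i => 2 * i + 2) id 2 u =
        (∏ u ∈ range k, (1 - V11307.Q.q ^ (2 * u + 1)) / (1 - V11307.Q.q ^ (2 * u + 2))) ^ 2 := by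
      rw [← prod_pow]
      refine prod_congr rfl fun u _ => ?_
      simp only [rho, id, f_two]
      rw [div_pow]
    rw [e3, e1, e2, qInt_eq, w, prod_div_distrib]
    have : q = V11307.Q.q := rfl
    rw [this]
    ring
  have hc : I n 1 (∑ t ∈ range m, w (V11307.Q.q ^ n) t * (1 - V11307.Q.q ^ n)⁻¹ *
      ∏ u ∈ range t, EE' (fun i => 2 * i + 1) (fun i => 2 * i + 2) id n 2 u - RatFunc.C (c m)) := by
    rw [c, map_sum, ← sum_sub_distrib]
    apply I.sum
    intro t _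
    have hprod : I n 1 (∏ u ∈ range t, (1 - V11307.Q.q ^ ((2 * u + 1) * n)) /
        (1 - V11307.Q.q ^ ((2 * u + 2) * n)) -
        ∏ u ∈ range t, (((2 * u + 1 : ℕ) : RatFunc ℚ) / ((2 * u + 2 : ℕ) : RatFunc ℚ))) := by
      refine I.prod_congr (fun u _ => ratio_cong hnpos _ (by omega)) (fun u _ => ?_) (fun u _ => ?_)
      · have h1 := ratio_cong hnpos (2 * u + 1) (b := 2 * u + 2) (by omega)
        have h2 : (((2 * u + 1 : ℕ) : RatFunc ℚ) / ((2 * u + 2 : ℕ) : RatFunc ℚ)) ∈ R n := by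
          rw [div_eq_mul_inv]
          exact mul_mem (natCast_mem _ _) (natCast_U hnpos (by omega)).2.2
        have := add_mem h1.mem h2
        rwa [sub_add_cancel] at this
      · rw [div_eq_mul_inv]
        exact mul_mem (natCast_mem _ _) (natCast_U hnpos (by omega)).2.2
    set π := ∏ u ∈ range t, (1 - V11307.Q.q ^ ((2 * u + 1) * n)) / (1 - V11307.Q.q ^ ((2 * u + 2) * n))
    set ϖ := ∏ u ∈ range t, (((2 * u + 1 : ℕ) : RatFunc ℚ) / ((2 * u + 2 : ℕ) : RatFunc ℚ)) with hϖ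
    have hϖmem : ϖ ∈ R n := prod_mem fun u _ => by
      rw [div_eq_mul_inv]
      exact mul_mem (natCast_mem _ _) (natCast_U hnpos (by omega)).2.2
    have hπmem : π ∈ R n := by
      have := add_mem hprod.mem hϖmem
      rwa [sub_add_cancel] at this
    have e1 : w (V11307.Q.q ^ n) t * (1 - V11307.Q.q ^ n)⁻¹ *
        ∏ u ∈ range t, EE' (fun i => 2 * i + 1) (fun i => 2 * i + 2) id n 2 u =
        (-1) ^ t * V11307.Q.q ^ (n * t ^ 2) *
          (((1 - V11307.Q.q ^ ((4 * t + 1) * n)) / (1 - V11307.Q.q ^ n)) * (π * (π * π))) := by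
      have e2 : ∏ u ∈ range t, EE' (fun i => 2 * i + 1) (fun i => 2 * i + 2) id n 2 u = π * π := by
        rw [← prod_mul_distrib]
        refine prod_congr rfl fun u _ => ?_
        simp only [EE', id, f_two]
        rw [div_mul_div_comm, sq, sq]
      have e3 : ∏ u ∈ range t, (1 - (V11307.Q.q ^ n) ^ (2 * u + 1)) / (1 - (V11307.Q.q ^ n) ^ (2 * u + 2))
          = π := by
        refine prod_congr rfl fun u _ => ?_
        rw [← pow_mul, ← pow_mul, mul_comm n, mul_comm n]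
      rw [e2, w, e3, ← pow_mul, ← pow_mul, mul_comm n (4 * t + 1), div_eq_mul_inv]
      ring
    have e4 : RatFunc.C ((-1) ^ t * (4 * t + 1) * (rising (1 / 2) t ^ 3 / (t.factorial : ℚ) ^ 3)) =
        (-1) ^ t * 1 * (((4 * t + 1 : ℕ) : RatFunc ℚ) * (ϖ * (ϖ * ϖ))) := by
      have e5 : RatFunc.C (rising (1 / 2) t / (t.factorial : ℚ)) = ϖ := by
        have : rising (1 / 2) t / (t.factorial : ℚ) = ∏ u ∈ range t, (((2 * u + 1 : ℕ) : ℚ) / ((2 * u + 2 : ℕ) : ℚ)) := by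
          rw [← prod_range_add_one_eq_factorial, rising]
          push_cast
          rw [← prod_div_distrib]
          refine prod_congr rfl fun u _ => ?_
          have : (u : ℚ) + 1 ≠ 0 := by positivity
          field_simp
          ring
        rw [this, map_prod, hϖ]
        refine prod_congr rfl fun u _ => ?_
        rw [map_div₀, map_natCast, map_natCast]
      rw [← div_pow, map_mul, map_mul, map_pow RatFunc.C (rising (1 / 2) t / (t.factorial : ℚ)), e5]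
      simp only [map_pow, map_neg, map_one, map_add, map_mul, map_natCast, map_ofNat, Nat.cast_add,
        Nat.cast_mul, Nat.cast_one, Nat.cast_ofNat]
      ring
    rw [e1, e4]
    have hq1 : I n 1 (V11307.Q.q ^ (n * t ^ 2) - 1) := I.symm (I_one_sub_nat hnpos (dvd_mul_right _ _))
    have hg := geom_cong hnpos (4 * t + 1)
    have hgm : (1 - V11307.Q.q ^ ((4 * t + 1) * n)) / (1 - V11307.Q.q ^ n) ∈ R n :=
      (geom_U_nat hnpos (by omega)).2.1
    have h5 : I n 1 (π * (π * π) - ϖ * (ϖ * ϖ)) :=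
      I.mul_congr hprod (I.mul_congr hprod hprod hϖmem hπmem) hϖmem (mul_mem hπmem hπmem)
    have h6 := I.mul_congr hg h5 (natCast_mem _ _) (mul_mem hπmem (mul_mem hπmem hπmem))
    have h8 := I.R_mul (y := (-1 : RatFunc ℚ) ^ t) (pow_mem (neg_mem (one_mem _)) _) (I.mul_congr hq1 h6
      (one_mem _) (mul_mem hgm (mul_mem hπmem (mul_mem hπmem hπmem))))
    convert h8 using 1
    ring
  have hq : I n 1 ((1 - V11307.Q.q ^ n) * (1 - V11307.Q.q)⁻¹) :=
    (I_one_sub_nat hnpos dvd_rfl).mul_R hU1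
  have h9 := (I.R_mul (y := (-1) ^ M * V11307.Q.q ^ (M ^ 2)) (mul_mem (pow_mem (neg_mem (one_mem _)) _)
    (pow_mem q_mem _)) hq).mul hc
  have h10 := main.add h9
  rw [hS, qInt_eq]
  convert h10 using 1
  have : q = V11307.Q.q := rfl
  rw [this]
  ring

/-- the degenerate modulus `n = 1` -/
theorem counter : ¬ CongSq 1 (S 2 1) (rhs 2 1) := by
  rintro ⟨P, Q, hQ, hP, h⟩
  rw [cyclotomic_one] at hQ hP
  have hq1 : (1 : RatFunc ℚ) - q ≠ 0 := by
    have := one_sub_ne (k := 1) one_pos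
    rwa [pow_one] at this
  have hq2 : (1 : RatFunc ℚ) - q ^ 2 ≠ 0 := one_sub_ne two_pos
  have hq3 : (1 : RatFunc ℚ) + q ≠ 0 := by
    intro h0
    apply hq2
    linear_combination (1 - q) * h0
  have hQ0 : Q ≠ 0 := by
    rintro rfl
    rw [isCoprime_zero_left] at hQ
    have := Polynomial.natDegree_eq_zero_of_isUnit hQ
    have h2 : (X - 1 : ℚ[X]).natDegree = 1 := natDegree_X_sub_C 1
    omega
  have hc : c 2 = 3 / 8 := by
    rw [c, sum_range_succ, sum_range_one]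
    simp [rising]
    norm_num
  have hS : S 2 1 = 1 - (1 + q + q ^ 2 + q ^ 3 + q ^ 4) * q / (1 + q) ^ 3 := by
    have e1 : qPoch q (q ^ 2) 1 = 1 - q := by simp [qPoch]
    have e2 : qPoch (q ^ 2) (q ^ 2) 1 = 1 - q ^ 2 := by simp [qPoch]
    have e3 : qInt 5 = 1 + q + q ^ 2 + q ^ 3 + q ^ 4 := by
      simp [qInt, sum_range_succ]
    have e4 : qInt 1 = 1 := by simp [qInt]
    rw [S, show 2 * 1 = 2 from rfl, sum_range_succ, sum_range_one]
    simp only [mul_one, mul_zero, zero_add, pow_zero, pow_one, one_mul, one_pow, e4]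
    rw [e1, e2, e3]
    have e5 : (1 - q) ^ 3 / (1 - q ^ 2) ^ 3 = 1 / (1 + q) ^ 3 := by
      rw [show (1 : RatFunc ℚ) - q ^ 2 = (1 - q) * (1 + q) by ring, mul_pow]
      field_simp
    rw [e5]
    simp [qPoch]
    ring
  have hr : rhs 2 1 = RatFunc.C (3 / 8) := by
    rw [rhs, hc]
    simp [qInt]
  rw [hS, hr] at h
  have hC : RatFunc.C (3 / 8 : ℚ) * 8 = 3 := by
    have : (8 : RatFunc ℚ) = RatFunc.C 8 := by rw [map_ofNat]
    rw [this, ← map_mul]
    norm_num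
  have hpoly : (5 * (1 + X) ^ 3 - 8 * (1 + X + X ^ 2 + X ^ 3 + X ^ 4) * X) * Q =
      8 * (1 + X) ^ 3 * P := by
    apply φ_inj
    have hφX : φ X = q := φ_X
    simp only [map_mul, map_sub, map_add, map_pow, map_one, map_ofNat, hφX]
    have hφQ := φ_ne hQ0
    rw [eq_div_iff hφQ] at h
    have h3 : (1 + q) ^ 3 * ((1 + q) ^ 3)⁻¹ = 1 := mul_inv_cancel₀ (pow_ne_zero 3 hq3)
    rw [div_eq_mul_inv] at h
    linear_combination (8 * (1 + q) ^ 3) * h + φ Q * (1 + q) ^ 3 * hC +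
      (8 * φ Q * (1 + q + q ^ 2 + q ^ 3 + q ^ 4) * q) * h3
  have hd : (X - 1 : ℚ[X]) ^ 2 ∣ (5 * (1 + X) ^ 3 - 8 * (1 + X + X ^ 2 + X ^ 3 + X ^ 4) * X) * Q := by
    rw [hpoly]; exact dvd_mul_of_dvd_right hP _
  have hd2 : (X - 1 : ℚ[X]) ^ 2 ∣ (5 * (1 + X) ^ 3 - 8 * (1 + X + X ^ 2 + X ^ 3 + X ^ 4) * X) :=
    (hQ.pow_right (n := 2)).symm.dvd_of_dvd_mul_right hd
  obtain ⟨e, he⟩ := hd2
  have hder := congrArg (fun p => eval 1 (derivative p)) he
  simp only [derivative_sub, derivative_mul, derivative_pow, derivative_add, derivative_X,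
    derivative_one, derivative_ofNat] at hder
  norm_num at hder

/-- For all `m ≥ 1` and all odd `n > 1` the congruence holds; for `n = 1` (where `Φ_1 = q - 1`) it
fails already for `m = 2`. -/
theorem result :
    (∀ m n : ℕ, 1 ≤ m → 1 < n → Odd n → CongSq n (S m n) (rhs m n)) ∧
      ¬ CongSq 1 (S 2 1) (rhs 2 1) := by
  refine ⟨?_, counter⟩
  rintro m n _ hn ⟨M, rfl⟩
  have h := main_I m M (by omega)
  rw [rhs, show (2 * M + 1 - 1) / 2 = M by omega, show (2 * M + 1 - 1) ^ 2 / 4 = M ^ 2 by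
    rw [show 2 * M + 1 - 1 = 2 * M by omega, mul_pow]; omega]
  exact h.exists_frac

end

end Pool.Agent.Results.MP_dac99f_nt.FourK
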